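import Mathlib

set_option autoImplicit false

namespace Pool.Agent.Results.MP_727445_co.Counter

/-- the values of the nonempty subset sums of `B` -/
def Sig (B : Finset ℕ) : Set ℕ := {s | ∃ T, T ⊆ B ∧ T.Nonempty ∧ ∑ b ∈ T, b = s}

/-- `B` is a set of `k` positive integers with largest element `m` whose nonempty subset sums
contain no 3-term progression -/
def Adm (k m : ℕ) : Prop :=
  ∃ B : Finset ℕ, B.card = k ∧ (∀ b ∈ B, 0 < b) ∧ IsGreatest (B : Set ℕ) m ∧ ThreeAPFree (Sig B)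

def D (B : Finset ℕ) : Prop :=
  ∀ c c' : ℕ → ℕ, (∀ b, c b ≤ 2) → (∀ b, c' b ≤ 2) →
    ∑ b ∈ B, c b * b = ∑ b ∈ B, c' b * b → ∀ b ∈ B, c b = c' b

theorem sum_ind {B T : Finset ℕ} (h : T ⊆ B) :
    ∑ b ∈ T, b = ∑ b ∈ B, (if b ∈ T then 1 else 0) * b := by
  rw [← Finset.sum_subset h (f := fun b => (if b ∈ T then 1 else 0) * b)]
  · exact Finset.sum_congr rfl (fun b hb => by simp [hb])
  · intro b _ hb
    simp [hb]

theorem free_of_D {B : Finset ℕ} (h : D B) : ThreeAPFree (Sig B) := by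
  rintro _ ⟨X, hX, -, rfl⟩ _ ⟨Y, hY, -, rfl⟩ _ ⟨Z, hZ, -, rfl⟩ e
  rw [sum_ind hX, sum_ind hY, sum_ind hZ, ← Finset.sum_add_distrib,
    ← Finset.sum_add_distrib] at e
  simp only [← add_mul] at e
  have h1 := h _ _ (fun b => by split_ifs <;> omega) (fun b => by split_ifs <;> omega) e
  rw [sum_ind hX, sum_ind hY]
  refine Finset.sum_congr rfl (fun b hb => ?_)
  have h2 := h1 b hb
  split_ifs at h2 ⊢ <;> omega

theorem D_insert {B : Finset ℕ} {a : ℕ} (ha : a ∉ B) (h : D B)
    (h1 : ∀ c c' : ℕ → ℕ, (∀ b, c b ≤ 2) → (∀ b, c' b ≤ 2) →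
      ∑ b ∈ B, c b * b ≠ ∑ b ∈ B, c' b * b + a ∧
      ∑ b ∈ B, c b * b ≠ ∑ b ∈ B, c' b * b + 2 * a) : D (insert a B) := by
  intro c c' hc hc' e
  rw [Finset.sum_insert ha, Finset.sum_insert ha] at e
  have h2 := h1 c c' hc hc'
  have h3 := h1 c' c hc' hc
  have h4 : c a = c' a := by
    have h5 := hc a
    have h6 := hc' a
    generalize c a = x at *
    generalize c' a = y at *
    interval_cases x <;> interval_cases y <;> omega
  rw [h4] at e
  intro b hb
  rcases Finset.mem_insert.1 hb with rfl | hb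
  · exact h4
  · exact h c c' hc hc' (by omega) b hb

def mask : List ℕ → ℕ
  | [] => 1
  | a :: l => mask l ||| (mask l <<< a ||| mask l <<< (2 * a))

def chk : List ℕ → Bool
  | [] => true
  | a :: l => (chk l && decide (a ∉ l)) &&
      (Nat.beq (mask l &&& mask l <<< a) 0 && Nat.beq (mask l &&& mask l <<< (2 * a)) 0)

theorem tb_shift {M s : ℕ} (a : ℕ) (h : M.testBit s = true) : (M <<< a).testBit (s + a) = true := by
  rw [Nat.testBit_shiftLeft]
  simp [h]

theorem sound : ∀ l : List ℕ, chk l = true → D l.toFinset ∧ l.Nodup ∧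
    ∀ c : ℕ → ℕ, (∀ b, c b ≤ 2) → (mask l).testBit (∑ b ∈ l.toFinset, c b * b) = true
  | [], _ => by
    refine ⟨fun c c' _ _ _ b hb => by simp at hb, List.nodup_nil, fun c _ => ?_⟩
    simp [mask]
  | a :: l, h => by
    simp only [chk, Bool.and_eq_true, decide_eq_true_eq, Nat.beq_eq] at h
    obtain ⟨⟨h1, h2⟩, h3, h4⟩ := h
    obtain ⟨i1, i2, i3⟩ := sound l h1
    have ha : a ∉ l.toFinset := by simpa using h2
    rw [List.toFinset_cons]
    refine ⟨D_insert ha i1 (fun c c' hc hc' => ⟨fun e => ?_, fun e => ?_⟩),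
      List.nodup_cons.2 ⟨h2, i2⟩, fun c hc => ?_⟩
    · have h5 := congrArg (fun M => M.testBit (∑ b ∈ l.toFinset, c b * b)) h3
      simp only [Nat.testBit_and, i3 c hc, Bool.true_and, Nat.zero_testBit] at h5
      rw [e, tb_shift a (i3 c' hc')] at h5
      exact absurd h5 (by simp)
    · have h5 := congrArg (fun M => M.testBit (∑ b ∈ l.toFinset, c b * b)) h4
      simp only [Nat.testBit_and, i3 c hc, Bool.true_and, Nat.zero_testBit] at h5
      rw [e, tb_shift (2 * a) (i3 c' hc')] at h5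
      exact absurd h5 (by simp)
    · rw [Finset.sum_insert ha, mask, Nat.testBit_or, Nat.testBit_or]
      have h5 := hc a
      have h6 := i3 c hc
      generalize c a = x at *
      interval_cases x
      · simp [h6]
      · rw [one_mul, add_comm, tb_shift a h6]; simp
      · rw [add_comm, tb_shift (2 * a) h6]; simp

def Q (k m : ℕ) : Prop :=
  ∃ B : Finset ℕ, B.card = k ∧ (∀ b ∈ B, 0 < b) ∧ IsGreatest (B : Set ℕ) m ∧ D B

theorem Q_step {k m : ℕ} (h : Q k m) : Q (k + 1) (3 * m) := by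
  obtain ⟨B, h1, h2, h3, h4⟩ := h
  have hi : Function.Injective (fun b : ℕ => 3 * b) := fun x y e => by simpa using e
  have hn : 1 ∉ B.image (fun b => 3 * b) := by
    intro h
    obtain ⟨b, -, e⟩ := Finset.mem_image.1 h
    omega
  have hs : ∀ c : ℕ → ℕ, ∑ b ∈ B.image (fun b => 3 * b), c b * b =
      3 * ∑ b ∈ B, c (3 * b) * b := by
    intro c
    rw [Finset.sum_image (fun x _ y _ e => hi e), Finset.mul_sum]
    exact Finset.sum_congr rfl (fun b _ => by ring)
  refine ⟨insert 1 (B.image (fun b => 3 * b)), ?_, ?_, ⟨?_, ?_⟩, D_insert hn ?_ ?_⟩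
  · rw [Finset.card_insert_of_notMem hn, Finset.card_image_of_injective _ hi, h1]
  · intro b hb
    rcases Finset.mem_insert.1 hb with rfl | hb
    · omega
    · obtain ⟨x, hx, rfl⟩ := Finset.mem_image.1 hb
      have := h2 x hx
      omega
  · exact Finset.mem_coe.2 (Finset.mem_insert_of_mem (Finset.mem_image.2 ⟨m, h3.1, rfl⟩))
  · intro b hb
    have hm := h2 m h3.1
    rcases Finset.mem_insert.1 (Finset.mem_coe.1 hb) with rfl | hb
    · omega
    · obtain ⟨x, hx, rfl⟩ := Finset.mem_image.1 hb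
      have : x ≤ m := h3.2 hx
      omega
  · intro c c' hc hc' e b hb
    obtain ⟨x, hx, rfl⟩ := Finset.mem_image.1 hb
    rw [hs, hs] at e
    exact h4 (fun b => c (3 * b)) (fun b => c' (3 * b)) (fun b => hc _) (fun b => hc' _)
      (by omega) x hx
  · intro c c' _ _
    rw [hs, hs]
    omega

theorem Q_iter {k m : ℕ} (h : Q k m) (j : ℕ) : Q (k + j) (m * 3 ^ j) := by
  induction j with
  | zero => simpa using h
  | succ j ih =>
    have := Q_step ih
    rwa [show 3 * (m * 3 ^ j) = m * 3 ^ (j + 1) by ring] at this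

theorem Q_base (l : List ℕ) (m : ℕ) (h : chk l = true) (h1 : m ∈ l)
    (h2 : ∀ b ∈ l, 0 < b ∧ b ≤ m) : Q l.length m := by
  obtain ⟨i1, i2, -⟩ := sound l h
  refine ⟨l.toFinset, List.toFinset_card_of_nodup i2, fun b hb => (h2 b (by simpa using hb)).1,
    ⟨by simpa using h1, fun b hb => (h2 b (by simpa using hb)).2⟩, i1⟩

theorem Q3 : Q 3 8 := Q_base [5, 7, 8] 8 (by decide +kernel) (by decide) (by decide)

theorem Q11 : Q 11 34709 :=
  Q_base [22924, 30668, 33322, 34232, 34540, 34649, 34687, 34701, 34706, 34708, 34709] 34709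
    (by decide +kernel) (by decide) (by decide)

theorem adm_of_Q {k m : ℕ} (h : Q k m) : Adm k m := by
  obtain ⟨B, h1, h2, h3, h4⟩ := h
  exact ⟨B, h1, h2, h3, free_of_D h4⟩

theorem result :
    (∀ k, 3 ≤ k → ∃ m, Adm k m ∧ m < 3 ^ (k - 1)) ∧
    (∀ k, 11 ≤ k → ∃ m, Adm k m ∧ 1000 * m < 588 * 3 ^ (k - 1)) := by
  constructor
  · intro k hk
    obtain ⟨j, rfl⟩ := Nat.exists_eq_add_of_le hk
    refine ⟨_, adm_of_Q (Q_iter Q3 j), ?_⟩
    rw [show 3 + j - 1 = 2 + j by omega, pow_add]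
    have : 0 < 3 ^ j := by positivity
    omega
  · intro k hk
    obtain ⟨j, rfl⟩ := Nat.exists_eq_add_of_le hk
    refine ⟨_, adm_of_Q (Q_iter Q11 j), ?_⟩
    rw [show 11 + j - 1 = 10 + j by omega, pow_add]
    have : 0 < 3 ^ j := by positivity
    omega

end Pool.Agent.Results.MP_727445_co.Counter
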